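import Pool.Agent.J6H36.LF.Stm

/-!
# Module POINT: a point over an algebraically closed field
-/

set_option autoImplicit false
set_option maxHeartbeats 400000

universe u

namespace Pool.Agent.J6H97.LFPoint

open MvPolynomial Pool.Agent.J6H36.LF

theorem map_pt {P R S : Type*} [CommSemiring P] [CommSemiring R] [CommSemiring S] [Algebra P R]
    [Algebra P S] (φ : R →ₐ[P] S) {d : ℕ} (t : Fin d → R) (a : R)
    (q : MvPolynomial (Option (Fin d)) P) :
    φ (aeval (pt a t) q) = aeval (pt (φ a) (fun i => φ (t i))) q := by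
  rw [MvPolynomial.comp_aeval_apply]
  congr 2
  funext o
  cases o <;> rfl

theorem t_POINT : Pool.Agent.J6H36.LF.S_POINT.{u} := by
  intro P _ d f g L _ _ t a hf hg k _ _ _
  let v : L := (aeval (pt a t) g)⁻¹
  let s : Set L := insert v (insert a (Set.range t))
  have hs : s.Finite := ((Set.finite_range t).insert a).insert v
  let R : Subalgebra P L := Algebra.adjoin P s
  have hfg : R.FG := ⟨hs.toFinset, by rw [Set.Finite.coe_toFinset]⟩
  haveI : Algebra.FiniteType P R := (Subalgebra.fg_iff_finiteType R).mp hfg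
  have hsub : s ⊆ (R : Set L) := Algebra.subset_adjoin
  let t' : Fin d → R := fun i => ⟨t i, hsub (Or.inr (Or.inr ⟨i, rfl⟩))⟩
  let a' : R := ⟨a, hsub (Or.inr (Or.inl rfl))⟩
  let v' : R := ⟨v, hsub (Or.inl rfl)⟩
  have hval : ∀ q : MvPolynomial (Option (Fin d)) P, R.val (aeval (pt a' t') q) = aeval (pt a t) q :=
    fun q => map_pt R.val t' a' q
  have hinj : Function.Injective R.val := Subtype.val_injective
  have hf' : aeval (pt a' t') f = 0 := by
    apply hinj
    rw [hval, hf, map_zero]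
  have hg' : aeval (pt a' t') g * v' = 1 := by
    apply hinj
    rw [map_mul, hval, map_one]
    exact mul_inv_cancel₀ hg
  obtain ⟨M, hM⟩ := Ideal.exists_maximal R
  letI : Field (R ⧸ M) := Ideal.Quotient.field M
  haveI : Algebra.FiniteType P (R ⧸ M) :=
    Algebra.FiniteType.of_surjective (Ideal.Quotient.mkₐ P M) (Ideal.Quotient.mkₐ_surjective P M)
  haveI : Module.Finite P (R ⧸ M) := finite_of_finite_type_of_isJacobsonRing P (R ⧸ M)
  let ψ : (R ⧸ M) →ₐ[P] k := IsAlgClosed.lift
  let Ψ : R →ₐ[P] k := ψ.comp (Ideal.Quotient.mkₐ P M)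
  refine ⟨fun i => Ψ (t' i), Ψ a', ?_, ?_⟩
  · rw [← map_pt Ψ, hf', map_zero]
  · rw [← map_pt Ψ]
    intro h
    have h1 := congrArg Ψ hg'
    rw [map_mul, h, zero_mul, map_one] at h1
    exact zero_ne_one h1

end Pool.Agent.J6H97.LFPoint
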